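import Pool.Agent.Lib.MP_688fd0_co.ASY.H18.Prog

/-!
The loop: either a long cycle, or a stage with a thin scale.
-/

set_option autoImplicit false

namespace Pool.Agent.Lib.MP_688fd0_co.ASY.H18

open Classical
open Pool.Agent.Lib.MP_688fd0_co.LP (IsP Conn Cyc Symm cay)
open Pool.Agent.Lib.MP_688fd0_co.LIN
open Pool.Agent.Lib.MP_688fd0_co.LIN.H18

universe u

theorem rat_le_card {V : Type u} [Fintype V] {G : SimpleGraph V} (hOpt : OptStatement.{u}) (hn : 0 < Fintype.card V)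
    {l : ℕ} {x : ℝ} (hx : 0 < x) (hR : Rat G l x) : l ≤ Fintype.card V := by
  obtain ⟨⟨H, hH⟩, hO⟩ := hOpt V G l
  have hnR : (0 : ℝ) < Fintype.card V := by exact_mod_cast hn
  have h1 := opt_rat hR hH
  have h2 := phi_le_cov l H
  have h3 : 0 < x * (Fintype.card V : ℝ) := by positivity
  have h4 : 0 < ((cov H).card : ℝ) := by linarith
  have h5 : 0 < (cov H).card := by exact_mod_cast h4
  obtain ⟨v, hv⟩ := Finset.card_pos.1 h5
  have h6 := ((hO H hH).1 v hv).1
  have h7 : (cyc H v).card ≤ Fintype.card V := Finset.card_le_univ _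
  omega

theorem loop (hNext : Next3Statement.{u}) (hOpt : OptStatement.{u}) (hBase : BaseStatement.{u})
    (hMono : MonoStatement.{u}) (M : ℕ) (hM : 1 ≤ M) :
    ∃ R e0 : ℕ, 4 ≤ e0 ∧ ∀ (V : Type u) [Fintype V] (G : SimpleGraph V), VT G → ∀ D, Diam G D →
      ∀ e1, e0 ≤ e1 → ∀ c : ℝ, 1 / (M : ℝ) ≤ c → Rat G (2 ^ e1) (c * (1 + 2 / (e1 : ℝ))) →
      (∃ cy, Cyc G cy ∧ c * (Fintype.card V : ℝ) ≤ cy.length) ∨
      ∃ e, e1 ≤ e ∧ 2 ^ e ≤ Fintype.card V ∧ Rat G (2 ^ e) (c * (1 + 2 / (e : ℝ))) ∧ ∃ i, Thin G D e R i := by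
  obtain ⟨C0, hC0⟩ := hNext
  obtain ⟨e0, he0⟩ := prog hBase hMono (C0 + 1) M (by omega)
  refine ⟨8 * ((C0 + 1) * M * (C0 + 1)), max e0 4, le_max_right _ _, ?_⟩
  intro V _ G hG D hD e1 he1 c hcM
  have he4 : 4 ≤ e1 := (le_max_right _ _).trans he1
  have he01 : e0 ≤ e1 := (le_max_left _ _).trans he1
  have hne : Nonempty V := hG.conn.nonempty
  have hn : 0 < Fintype.card V := Fintype.card_pos
  have hnR : (0 : ℝ) < Fintype.card V := by exact_mod_cast hn
  have hMR : (0 : ℝ) < M := by exact_mod_cast hM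
  have hc : 0 < c := lt_of_lt_of_le (by positivity) hcM
  have main : ∀ t e, e1 ≤ e → Fintype.card V - e = t → Rat G (2 ^ e) (c * (1 + 2 / (e : ℝ))) →
      (∃ cy, Cyc G cy ∧ c * (Fintype.card V : ℝ) ≤ cy.length) ∨
      ∃ e, e1 ≤ e ∧ 2 ^ e ≤ Fintype.card V ∧ Rat G (2 ^ e) (c * (1 + 2 / (e : ℝ))) ∧
        ∃ i, Thin G D e (8 * ((C0 + 1) * M * (C0 + 1))) i := by
    intro t
    induction t with
    | zero =>
      intro e he hte hR
      exfalso
      have h1 := rat_le_card hOpt hn (by positivity) hR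
      have h8 : e < 2 ^ e := Nat.lt_two_pow_self
      omega
    | succ t ih =>
      intro e he hte hR
      have he0' : 4 ≤ e := he4.trans he
      have hx : 0 < c * (1 + 2 / (e : ℝ)) := by positivity
      have hxc : c ≤ c * (1 + 2 / (e : ℝ)) := by
        have : (0 : ℝ) ≤ 2 / (e : ℝ) := by positivity
        nlinarith
      have hbig : 2 ^ e ≤ Fintype.card V := rat_le_card hOpt hn hx hR
      rcases he0 e (he01.trans he) V G hG D hD with ⟨s, hsD, hs1, hs2⟩ | hthin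
      · have hK : 2 ≤ e ^ 2 := by nlinarith
        have h1 : C0 * (e ^ 2) ^ 3 * (s + 1) ≤ 2 ^ e := by
          refine le_trans ?_ hs1
          gcongr
          omega
        have h2 : s = D ∨ (C0 * ((e ^ 2 : ℕ) : ℝ) * ((2 ^ e : ℕ) : ℝ)) ≤ c * (1 + 2 / (e : ℝ)) * bn G s := by
          rcases hs2 with h | h
          · exact Or.inl h
          · right
            have h3 : (((C0 + 1) * M * e ^ 2 * 2 ^ e : ℕ) : ℝ) ≤ bn G s := by exact_mod_cast h
            have h4 : (0 : ℝ) ≤ bn G s := by positivity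
            calc (C0 * ((e ^ 2 : ℕ) : ℝ) * ((2 ^ e : ℕ) : ℝ))
                ≤ ((C0 : ℝ) + 1) * ((e ^ 2 : ℕ) : ℝ) * ((2 ^ e : ℕ) : ℝ) := by gcongr; linarith
              _ = 1 / (M : ℝ) * (((C0 + 1) * M * e ^ 2 * 2 ^ e : ℕ) : ℝ) := by
                  push_cast; field_simp
              _ ≤ 1 / (M : ℝ) * bn G s := by gcongr
              _ ≤ c * (1 + 2 / (e : ℝ)) * bn G s := by gcongr; exact hcM.trans hxc
        obtain ⟨hN, _⟩ := hC0 V G hG D hD (2 ^ e) (e ^ 2) s hK hsD h1 _ hx h2 hR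
        rcases hN with ⟨cy, hcy, hlen⟩ | hR'
        · left
          exact ⟨cy, hcy, le_trans (mul_le_mul_of_nonneg_right hxc hnR.le) hlen⟩
        · refine ih (e + 1) (by omega) (by omega) ?_
          have h2 := loss_step e he0' c hc.le
          have h3 : Rat G (2 * 2 ^ e) (c * (1 + 2 / ((e + 1 : ℕ) : ℝ))) := rat_mono hR' h2
          rw [pow_succ, mul_comm]
          exact h3
      · right
        exact ⟨e, he, hbig, hR, hthin⟩
  exact fun hR => main _ e1 le_rfl rfl hR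

end Pool.Agent.Lib.MP_688fd0_co.ASY.H18
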