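import Pool.Agent.Lib.MP_688fd0_co.ASY.H18.Loop
import Pool.Agent.Lib.MP_688fd0_co.LIN.H18.Main1c
import Pool.Agent.Lib.MP_688fd0_co.LIN.H18.Step2

/-!
Assemblies: T1V, T2V, T3V.
-/

set_option autoImplicit false

namespace Pool.Agent.Lib.MP_688fd0_co.ASY.H18

open Classical
open Pool.Agent.Lib.MP_688fd0_co.LP (IsP Conn Cyc Symm cay)
open Pool.Agent.Lib.MP_688fd0_co.LIN
open Pool.Agent.Lib.MP_688fd0_co.LIN.H18

universe u

/-- linear length for bounded degree -/
theorem t1_bdd (hNext : NextStatement.{u}) (hEnd : EndcStatement.{u}) (hGeoc : GeocStatement.{u})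
    (hStart : StartStatement.{u}) (hOpt : OptStatement.{u}) (hMass : MassStatement.{u}) (hBase : BaseStatement.{u})
    (hLing : LingStatement.{u}) (hGrowth : GrowthStatement.{u}) (hGrowth2 : Growth2Statement) (d0 : ℕ) :
    ∃ c : ℝ, 0 < c ∧ ∀ (V : Type u) [Fintype V] (G : SimpleGraph V), VT G → (∀ v, dg G v ≤ d0) →
      3 ≤ Fintype.card V → ∃ cy, Cyc G cy ∧ c * (Fintype.card V : ℝ) ≤ cy.length := by
  obtain ⟨eB, CB, hB⟩ := phaseBc hNext hEnd hOpt hBase hGrowth hGrowth2 (d0 + 1)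
  set e0 := max eB 4 with he0
  have h0B : eB ≤ e0 := le_max_left _ _
  have h04 : 4 ≤ e0 := le_max_right _ _
  clear_value e0
  obtain ⟨i0, hi0⟩ := exists_pow_31_32 (4 * (2 * 2 ^ e0 + 1) * (2 * d0 + 1))
  set s0 := (31 ^ i0 - 1) / 2 with hs0
  set c2 : ℝ := 1 / (8 * ((2 * s0 * d0 + 1 : ℕ) : ℝ)) with hc2
  set N1 : ℕ := 4 * (100000 * (d0 + 1) ^ (1000 * 31 ^ i0)) with hN1
  have hc2pos : 0 < c2 := by positivity
  have hN1pos : 0 < N1 := by positivity
  have hN1R : (0 : ℝ) < N1 := by exact_mod_cast hN1pos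
  have hbound : ∃ c : ℝ, 0 < c ∧ c ≤ c2 / (CB + 1) ∧ c ≤ 1 / N1 := by
    refine ⟨min (c2 / (CB + 1)) (1 / N1), by positivity, min_le_left _ _, min_le_right _ _⟩
  obtain ⟨c, hc, hcc2, hcN⟩ := hbound
  refine ⟨c, hc, ?_⟩
  intro V _ G hVT hd hn3
  have hnR : (0 : ℝ) < Fintype.card V := by
    have : 0 < Fintype.card V := by omega
    exact_mod_cast this
  have hlossc : ∀ (c' : ℝ) (e : ℕ), 0 < c' → 4 ≤ e → c' * (1 + 2 / (e : ℝ)) ≤ 2 * c' := by
    intro c' e hc' he
    have he' : (4 : ℝ) ≤ e := by exact_mod_cast he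
    have : 2 / (e : ℝ) ≤ 1 := by
      rw [div_le_one (by linarith)]; linarith
    nlinarith
  obtain ⟨hBc, hBi, hB1, hB0, hBm, hBD, D, hD⟩ := hBase _ G hVT
  have hne : Nonempty V := hVT.conn.nonempty
  by_cases hDs : D < 1000 * 31 ^ i0
  · -- bounded size
    have h1 : Fintype.card V ≤ N1 := by
      rw [← hBD D hD]
      refine (bn_le_pow hBase hVT hd D).trans ?_
      calc (d0 + 1) ^ D ≤ (d0 + 1) ^ (1000 * 31 ^ i0) := Nat.pow_le_pow_right (by omega) hDs.le
        _ ≤ N1 := by rw [hN1]; omega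
    obtain ⟨P, hP, _⟩ := Pool.Agent.Lib.MP_688fd0_co.LPV.long_cycle G hVT.conn hVT.tr hn3
    refine ⟨P, hP, ?_⟩
    have h2 : (Fintype.card V : ℝ) ≤ N1 := by exact_mod_cast h1
    have h4 : (1 : ℝ) ≤ P.length := by
      have := hP.2.1
      exact_mod_cast (by omega : 1 ≤ P.length)
    calc c * (Fintype.card V : ℝ) ≤ 1 / N1 * N1 := by gcongr
      _ = 1 := by field_simp
      _ ≤ P.length := h4
  push Not at hDs
  by_cases hlin : ∃ i < i0, bn G ((31 ^ (i + 1) - 1) / 2) < 32 * bn G ((31 ^ i - 1) / 2)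
  · obtain ⟨i, hi, hi2⟩ := hlin
    rw [succ_scale] at hi2
    have hle : 31 ^ i ≤ 31 ^ i0 := Nat.pow_le_pow_right (by norm_num) hi.le
    have h1 := hLing _ G hVT D hD ((31 ^ i - 1) / 2) (31 ^ i) (odd_pow i) hi2 (by omega)
    have h2 : bn G ((31 ^ i - 1) / 2) ≤ (d0 + 1) ^ (1000 * 31 ^ i0) := by
      refine (bn_le_pow hBase hVT hd _).trans ?_
      apply Nat.pow_le_pow_right (by omega)
      omega
    have h3 : 4 * Fintype.card V ≤ D * N1 := by
      calc 4 * Fintype.card V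
          ≤ 4 * (31 ^ i * Fintype.card V) :=
            Nat.mul_le_mul_left _ (Nat.le_mul_of_pos_left _ (by positivity))
        _ ≤ 4 * (100000 * D * bn G ((31 ^ i - 1) / 2)) := Nat.mul_le_mul_left _ h1
        _ ≤ 4 * (100000 * D * (d0 + 1) ^ (1000 * 31 ^ i0)) :=
            Nat.mul_le_mul_left _ (Nat.mul_le_mul_left _ h2)
        _ = D * N1 := by rw [hN1]; ring
    obtain ⟨P, hP, hPl⟩ := hGeoc _ G hVT D hD ((31 ^ i - 1) / 2) (31 ^ i) (odd_pow i) hi2
      (by omega)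
    refine ⟨P, hP, ?_⟩
    have h4 : 4 * (Fintype.card V : ℝ) ≤ D * N1 := by exact_mod_cast h3
    have h6 : (D : ℝ) ≤ 4 * P.length := by exact_mod_cast hPl
    have h7 : c * (Fintype.card V : ℝ) ≤ 1 / N1 * (Fintype.card V : ℝ) :=
      mul_le_mul_of_nonneg_right hcN hnR.le
    refine h7.trans ?_
    rw [one_div, inv_mul_le_iff₀ hN1R]
    nlinarith
  · push Not at hlin
    have hpow : ∀ j, j ≤ i0 → 32 ^ j ≤ bn G ((31 ^ j - 1) / 2) := by
      intro j
      induction j with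
      | zero => intro _; simp [hB0]
      | succ j ihj =>
        intro hj
        have h1 := ihj (by omega)
        have h2 := hlin j (by omega)
        calc 32 ^ (j + 1) = 32 * 32 ^ j := by ring
          _ ≤ 32 * bn G ((31 ^ j - 1) / 2) := by omega
          _ ≤ _ := h2
    have h1 := hpow i0 le_rfl
    have hnum : 2 * (2 * (2 * 2 ^ e0 + 1) * (2 * s0 * d0 + 1)) ≤ bn G s0 := by
      refine le_trans ?_ h1
      refine le_trans ?_ hi0
      have h2 : 2 * s0 * d0 + 1 ≤ (2 * d0 + 1) * 31 ^ i0 := by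
        have h3 := odd_pow i0
        have h4 : 2 * s0 + 1 = 31 ^ i0 := by rw [hs0]; omega
        nlinarith
      calc 2 * (2 * (2 * 2 ^ e0 + 1) * (2 * s0 * d0 + 1))
          ≤ 2 * (2 * (2 * 2 ^ e0 + 1) * ((2 * d0 + 1) * 31 ^ i0)) := by gcongr
        _ = 4 * (2 * 2 ^ e0 + 1) * (2 * d0 + 1) * 31 ^ i0 := by ring
    have hR := startRat hStart hOpt hMass _ G hVT d0 (2 ^ e0) s0 _ hd hnum le_rfl
    have hR2 : Rat G (2 ^ e0) (c2 * (1 + 2 / (e0 : ℝ))) := by
      refine rat_mono hR ((hlossc c2 e0 hc2pos h04).trans ?_)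
      exact eight _ (by positivity)
    obtain ⟨P, hP, hPl⟩ := hB _ G hVT D hD d0 hd e0 h0B (by nlinarith) c2 hc2pos hR2
    refine ⟨P, hP, ?_⟩
    have h5 : c * (Fintype.card V : ℝ) ≤ c2 / (CB + 1) * (Fintype.card V : ℝ) :=
      mul_le_mul_of_nonneg_right hcc2 hnR.le
    refine h5.trans ?_
    rw [div_mul_eq_mul_div, div_le_iff₀ (by positivity)]
    have h2 : (0 : ℝ) ≤ P.length := by positivity
    have h3 : (P.length : ℝ) * (CB + 1) = CB * P.length + P.length := by ring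
    rw [h3]
    linarith

/-- all vertices have the same degree -/
theorem vt_regular {V : Type u} [Fintype V] {G : SimpleGraph V} (hG : VT G) (v w : V) : dg G v = dg G w := by
  obtain ⟨φ, hφ⟩ := hG.tr v w
  unfold dg
  rw [← hφ]
  refine Finset.card_bij (fun x _ => φ x) ?_ ?_ ?_
  · intro x hx
    simp only [Finset.mem_filter, Finset.mem_univ, true_and] at hx ⊢
    exact φ.map_adj_iff.2 hx
  · intro x _ y _ h
    exact φ.injective h
  · intro y hy
    simp only [Finset.mem_filter, Finset.mem_univ, true_and] at hy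
    refine ⟨φ.symm y, ?_, by simp⟩
    simp only [Finset.mem_filter, Finset.mem_univ, true_and]
    have : G.Adj (φ v) (φ (φ.symm y)) := by simpa using hy
    exact φ.map_adj_iff.1 this

theorem t1v (hNext : NextStatement.{u}) (hNext3 : Next3Statement.{u}) (hStart3 : Start3Statement.{u})
    (hEnd : EndcStatement.{u}) (hGeoc : GeocStatement.{u}) (hStart : StartStatement.{u}) (hOpt : OptStatement.{u})
    (hMass : MassStatement.{u}) (hBase : BaseStatement.{u}) (hMono : MonoStatement.{u}) (hLing : LingStatement.{u})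
    (hGrowth : GrowthStatement.{u}) (hGrowth2 : Growth2Statement) : T1vStatement.{u} := by
  obtain ⟨R, e0, he04, hloop⟩ := loop hNext3 hOpt hBase hMono 4 (by norm_num)
  obtain ⟨CE, hCE⟩ := hEnd
  obtain ⟨e2, he2⟩ := hGrowth2 R CE
  set e1 := max e0 e2 with he1
  have h10 : e0 ≤ e1 := le_max_left _ _
  have h12 : e2 ≤ e1 := le_max_right _ _
  clear_value e1
  obtain ⟨d0, hd0⟩ := hStart3 (1 / 2) (by norm_num) (2 ^ e1)
  obtain ⟨c0, hc0, hbdd⟩ := t1_bdd hNext ⟨CE, hCE⟩ hGeoc hStart hOpt hMass hBase hLing hGrowth hGrowth2 d0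
  refine ⟨min c0 (1 / (4 * (CE + 1))), by positivity, ?_⟩
  intro V _ G hG hn3
  have hnR : (0 : ℝ) < Fintype.card V := by
    have : 0 < Fintype.card V := by omega
    exact_mod_cast this
  have hne : Nonempty V := hG.conn.nonempty
  obtain ⟨v0⟩ := hne
  by_cases hd : dg G v0 ≤ d0
  · obtain ⟨cy, hcy, hl⟩ := hbdd V G hG (fun v => by rw [vt_regular hG v v0]; exact hd) hn3
    exact ⟨cy, hcy, le_trans (mul_le_mul_of_nonneg_right (min_le_left _ _) hnR.le) hl⟩
  · push Not at hd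
    have hR := hd0 V G (dg G v0) (fun v => vt_regular hG v v0) hd.le
    obtain ⟨_, _, _, _, _, _, D, hD⟩ := hBase _ G hG
    have he1R : (4 : ℝ) ≤ e1 := by exact_mod_cast he04.trans h10
    have hR2 : Rat G (2 ^ e1) ((1 / 4 : ℝ) * (1 + 2 / (e1 : ℝ))) := by
      refine rat_mono hR ?_
      have : 2 / (e1 : ℝ) ≤ 1 := by
        rw [div_le_one (by linarith)]; linarith
      linarith
    have hfin : ∀ y : ℝ, 1 / 4 * (Fintype.card V : ℝ) ≤ (CE + 1) * y →
        min c0 (1 / (4 * (CE + 1))) * (Fintype.card V : ℝ) ≤ y := by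
      intro y hy
      have h1 : min c0 (1 / (4 * (CE + 1))) * (Fintype.card V : ℝ) ≤ 1 / (4 * (CE + 1)) * (Fintype.card V : ℝ) :=
        mul_le_mul_of_nonneg_right (min_le_right _ _) hnR.le
      refine h1.trans ?_
      have h2 : (0 : ℝ) < CE + 1 := by positivity
      rw [div_mul_eq_mul_div, one_mul, div_le_iff₀ (by positivity)]
      nlinarith
    rcases hloop V G hG D hD e1 h10 (1 / 4) (by norm_num) hR2 with ⟨cy, hcy, hl⟩ | ⟨e, he, hen, hRe, i, hthin⟩
    · refine ⟨cy, hcy, hfin _ ?_⟩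
      have h1 : (0 : ℝ) ≤ cy.length := by positivity
      have h2 : (0 : ℝ) ≤ (CE : ℝ) * cy.length := by positivity
      linarith
    · -- thin scale
      have hb : ¬ 2 ^ e ≤ CE * (bn G ((31 ^ i - 1) / 2)) ^ 3 := by
        intro h
        have h1 := he2 e (h12.trans he) i _ hthin.big h
        have h2 := hthin.few
        have h3 : R * e ^ 8 * 31 ^ i ≤ R * (e + 1) ^ 9 * 31 ^ i := by
          apply Nat.mul_le_mul_right
          apply Nat.mul_le_mul_left
          calc e ^ 8 ≤ (e + 1) ^ 8 := Nat.pow_le_pow_left (by omega) 8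
            _ ≤ (e + 1) ^ 9 := Nat.pow_le_pow_right (by omega) (by norm_num)
        omega
      push Not at hb
      have hend : CE * (bn G ((31 ^ i - 1) / 2)) ^ 3 ≤ 2 ^ e * (31 ^ i) ^ 2 := by
        refine hb.le.trans ?_
        exact Nat.le_mul_of_pos_right _ (by positivity)
      obtain ⟨⟨H, hH⟩, hO⟩ := hOpt V G (2 ^ e)
      have h1 := opt_rat hRe hH
      have h2 := phi_le_cov (2 ^ e) H
      have h3 : 0 < (1 / 4 : ℝ) * (1 + 2 / (e : ℝ)) * (Fintype.card V : ℝ) := by positivity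
      have h4 : 0 < ((cov H).card : ℝ) := by linarith
      have h5 : 1 ≤ (cov H).card := by
        have : 0 < (cov H).card := by exact_mod_cast h4
        omega
      have h30 : 30 * 31 ^ i ≤ D := by
        have := hthin.le_D
        rw [pow_succ] at this
        omega
      obtain ⟨P, hP, hP2⟩ := hCE V G H hG D hD ((31 ^ i - 1) / 2) (31 ^ i) (2 ^ e) (odd_pow i) hthin.lin h30 hH
        hend h5
      refine ⟨P, hP, hfin _ ?_⟩
      have h6 : ((cov H).card : ℝ) ≤ (CE : ℝ) * P.length := by exact_mod_cast hP2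
      have h7 : (0 : ℝ) ≤ P.length := by positivity
      have h8 : 1 / 4 * (Fintype.card V : ℝ) ≤ (1 / 4 : ℝ) * (1 + 2 / (e : ℝ)) * (Fintype.card V : ℝ) := by
        have h9 : (0 : ℝ) ≤ 2 / (e : ℝ) := by positivity
        nlinarith
      linarith

/-- the loop with the diameter condition -/
theorem loop_diam (hNext3 : Next3Statement.{u}) (hOpt : OptStatement.{u}) (hBase : BaseStatement.{u})
    (hMono : MonoStatement.{u}) (hLing : LingStatement.{u}) :
    ∃ e0 : ℕ, 4 ≤ e0 ∧ ∀ (V : Type u) [Fintype V] (G : SimpleGraph V), VT G →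
      (∀ D, Diam G D → (D : ℝ) * (Real.logb 2 (Fintype.card V)) ^ 9 ≤ Fintype.card V) →
      ∀ e1, e0 ≤ e1 → ∀ c : ℝ, 1 / 4 ≤ c → Rat G (2 ^ e1) (c * (1 + 2 / (e1 : ℝ))) →
      ∃ cy, Cyc G cy ∧ c * (Fintype.card V : ℝ) ≤ cy.length := by
  obtain ⟨R, e0, he04, hloop⟩ := loop hNext3 hOpt hBase hMono 4 (by norm_num)
  refine ⟨max e0 (100000 * R), he04.trans (le_max_left _ _), ?_⟩
  intro V _ G hG hdiam e1 he1 c hc hR
  have h10 : e0 ≤ e1 := (le_max_left _ _).trans he1
  have h1R : 100000 * R ≤ e1 := (le_max_right _ _).trans he1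
  obtain ⟨_, _, _, _, _, _, D, hD⟩ := hBase _ G hG
  have hne : Nonempty V := hG.conn.nonempty
  have hn : 0 < Fintype.card V := Fintype.card_pos
  have hnR : (0 : ℝ) < Fintype.card V := by exact_mod_cast hn
  rcases hloop V G hG D hD e1 h10 c (by exact_mod_cast hc) hR with h | ⟨e, he, hen, hRe, i, hthin⟩
  · exact h
  · exfalso
    have h30 : 30 * 31 ^ i ≤ D := by
      have := hthin.le_D
      rw [pow_succ] at this
      omega
    have h1 := hLing V G hG D hD ((31 ^ i - 1) / 2) (31 ^ i) (odd_pow i) hthin.lin h30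
    have h2 := hthin.few
    have hlog : (e : ℝ) ≤ Real.logb 2 (Fintype.card V) := by
      rw [Real.le_logb_iff_rpow_le (by norm_num) hnR, Real.rpow_natCast]
      exact_mod_cast hen
    have h3 : (D : ℝ) * (e : ℝ) ^ 9 ≤ Fintype.card V := by
      refine le_trans ?_ (hdiam D hD)
      gcongr
    have h4 : D * e ^ 9 ≤ Fintype.card V := by exact_mod_cast h3
    have hD0 : 0 < D := by
      have : 0 < 31 ^ i := by positivity
      omega
    have h5 : 31 ^ i * (D * e ^ 9) < 31 ^ i * (D * (100000 * R * e ^ 8)) := by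
      calc 31 ^ i * (D * e ^ 9) ≤ 31 ^ i * Fintype.card V := Nat.mul_le_mul_left _ h4
        _ ≤ 100000 * D * bn G ((31 ^ i - 1) / 2) := h1
        _ < 100000 * D * (R * e ^ 8 * 31 ^ i) := by
            apply Nat.mul_lt_mul_of_pos_left h2
            omega
        _ = 31 ^ i * (D * (100000 * R * e ^ 8)) := by ring
    have h6 : e ^ 9 < 100000 * R * e ^ 8 := by
      have h7 := Nat.lt_of_mul_lt_mul_left h5
      exact Nat.lt_of_mul_lt_mul_left h7
    have h8 : 100000 * R * e ^ 8 ≤ e * e ^ 8 := Nat.mul_le_mul_right _ (h1R.trans he)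
    have h9 : e * e ^ 8 = e ^ 9 := by ring
    omega

theorem start_family' {V : Type u} [Fintype V] {G : SimpleGraph V} (F : Finset (List V)) (C l : ℕ) (ε : ℝ)
    (hF : ∀ c ∈ F, Cyc G c ∧ C ≤ c.length) (hPD : PD F)
    (hsum : (1 - ε) * (Fintype.card V : ℝ) ≤ ∑ c ∈ F, (c.length : ℝ))
    (hC : (l : ℝ) ≤ ε / 4 * C) (hε : 0 < ε) : Rat G l (1 - 5 * ε / 4) := by
  obtain ⟨H, hH, h1, h2, h3⟩ := family_cf F (fun c hc => (hF c hc).1) hPD
  have h6 : F.card * C ≤ (cov H).card := by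
    rw [h2, ← smul_eq_mul, ← Finset.sum_const]
    exact Finset.sum_le_sum (fun c hc => (hF c hc).2)
  have h7 : (cov H).card ≤ Fintype.card V := Finset.card_le_univ _
  refine ⟨H, hH, ?_⟩
  have h8 : ((phi l H : ℤ) : ℝ) = ((cov H).card : ℝ) - l * ncyc H := by
    unfold phi; push_cast; ring
  rw [h8]
  have h9 : ((cov H).card : ℝ) = ∑ c ∈ F, (c.length : ℝ) := by rw [h2]; push_cast; rfl
  rw [← h9] at hsum
  have h10 : (F.card : ℝ) * C ≤ Fintype.card V := by exact_mod_cast h6.trans h7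
  have h11 : (l : ℝ) * ncyc H ≤ ε / 4 * (Fintype.card V : ℝ) := by
    have h12 : (ncyc H : ℝ) ≤ F.card := by exact_mod_cast h3
    have h13 : (0 : ℝ) ≤ ncyc H := by positivity
    calc (l : ℝ) * ncyc H ≤ (ε / 4 * C) * F.card := by gcongr
      _ = ε / 4 * (F.card * C) := by ring
      _ ≤ _ := by gcongr
  linarith

theorem t2v (hNext3 : Next3Statement.{u}) (hOpt : OptStatement.{u}) (hBase : BaseStatement.{u})
    (hMono : MonoStatement.{u}) (hLing : LingStatement.{u}) : T2vStatement.{u} := by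
  intro ε hε hε1
  obtain ⟨eL, heL4, hL⟩ := loop_diam hNext3 hOpt hBase hMono hLing
  obtain ⟨e3, he3⟩ := exists_nat_ge (8 / ε)
  set e0 := max eL e3 with he0
  have h0L : eL ≤ e0 := le_max_left _ _
  have h03 : e3 ≤ e0 := le_max_right _ _
  have h04 : 4 ≤ e0 := heL4.trans h0L
  clear_value e0
  obtain ⟨C, hC⟩ := exists_nat_ge (4 * 2 ^ e0 / ε)
  refine ⟨C, ?_⟩
  intro V _ G hG hdiam hfam
  obtain ⟨F, hF, hPD, hsum⟩ := hfam
  have hne : Nonempty V := hG.conn.nonempty
  have hnR : (0 : ℝ) < Fintype.card V := by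
    have : 0 < Fintype.card V := Fintype.card_pos
    exact_mod_cast this
  by_cases hhalf : 1 / 2 ≤ ε
  · have hne : F.Nonempty := by
      rw [Finset.nonempty_iff_ne_empty]
      rintro rfl
      rw [Finset.sum_empty] at hsum
      nlinarith
    obtain ⟨c, hc⟩ := hne
    refine ⟨c, (hF c hc).1, ?_⟩
    have h1 : (0 : ℝ) ≤ c.length := by positivity
    nlinarith
  push Not at hhalf
  have he0R : (0 : ℝ) < e0 := by
    have : 0 < e0 := by omega
    exact_mod_cast this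
  set c : ℝ := (1 - 5 * ε / 4) / (1 + 2 / (e0 : ℝ)) with hcdef
  have hpos1 : (0 : ℝ) < 1 + 2 / (e0 : ℝ) := by positivity
  have h2e0 : 2 / (e0 : ℝ) ≤ ε / 4 := by
    have h1 : 8 / ε ≤ e0 := he3.trans (by exact_mod_cast h03)
    rw [div_le_iff₀ hε] at h1
    rw [div_le_iff₀ he0R]
    nlinarith
  have hc14 : 1 / 4 ≤ c := by
    rw [hcdef, le_div_iff₀ hpos1]
    nlinarith
  have hc2 : 1 - 2 * ε ≤ c := by
    rw [hcdef, le_div_iff₀ hpos1]
    nlinarith
  have hcc : c * (1 + 2 / (e0 : ℝ)) = 1 - 5 * ε / 4 := by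
    rw [hcdef]; field_simp
  have hstart : Rat G (2 ^ e0) (c * (1 + 2 / (e0 : ℝ))) := by
    rw [hcc]
    refine start_family' F C (2 ^ e0) ε hF hPD hsum ?_ hε
    rw [div_le_iff₀ hε] at hC
    push_cast
    nlinarith
  obtain ⟨cy, hcy, hl⟩ := hL V G hG hdiam e0 h0L c hc14 hstart
  exact ⟨cy, hcy, le_trans (mul_le_mul_of_nonneg_right hc2 hnR.le) hl⟩

theorem t3v (hNext3 : Next3Statement.{u}) (hStart3 : Start3Statement.{u}) (hOpt : OptStatement.{u})
    (hBase : BaseStatement.{u}) (hMono : MonoStatement.{u}) (hLing : LingStatement.{u}) : T3vStatement.{u} := by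
  intro ε' hε'
  set ε := min ε' (1 / 2) with hεdef
  have hε : 0 < ε := by positivity
  have hεh : ε ≤ 1 / 2 := min_le_right _ _
  have hεε : ε ≤ ε' := min_le_left _ _
  clear_value ε
  obtain ⟨eL, heL4, hL⟩ := loop_diam hNext3 hOpt hBase hMono hLing
  obtain ⟨e3, he3⟩ := exists_nat_ge (8 / ε)
  set e0 := max eL e3 with he0
  have h0L : eL ≤ e0 := le_max_left _ _
  have h03 : e3 ≤ e0 := le_max_right _ _
  have h04 : 4 ≤ e0 := heL4.trans h0L
  clear_value e0
  obtain ⟨d0, hd0⟩ := hStart3 (ε / 2) (by positivity) (2 ^ e0)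
  refine ⟨d0, ?_⟩
  intro V _ G hG hdiam hdeg
  obtain ⟨v0, hv0⟩ := hdeg
  have hne : Nonempty V := hG.conn.nonempty
  have hnR : (0 : ℝ) < Fintype.card V := by
    have : 0 < Fintype.card V := Fintype.card_pos
    exact_mod_cast this
  have hR := hd0 V G (dg G v0) (fun v => vt_regular hG v v0) hv0
  have he0R : (0 : ℝ) < e0 := by
    have : 0 < e0 := by omega
    exact_mod_cast this
  set c : ℝ := (1 - ε / 2) / (1 + 2 / (e0 : ℝ)) with hcdef
  have hpos1 : (0 : ℝ) < 1 + 2 / (e0 : ℝ) := by positivity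
  have h2e0 : 2 / (e0 : ℝ) ≤ ε / 4 := by
    have h1 : 8 / ε ≤ e0 := he3.trans (by exact_mod_cast h03)
    rw [div_le_iff₀ hε] at h1
    rw [div_le_iff₀ he0R]
    nlinarith
  have hc14 : 1 / 4 ≤ c := by
    rw [hcdef, le_div_iff₀ hpos1]
    nlinarith
  have hc2 : 1 - ε' ≤ c := by
    rw [hcdef, le_div_iff₀ hpos1]
    nlinarith
  have hcc : c * (1 + 2 / (e0 : ℝ)) = 1 - ε / 2 := by
    rw [hcdef]; field_simp
  obtain ⟨cy, hcy, hl⟩ := hL V G hG hdiam e0 h0L c hc14 (by rw [hcc]; exact hR)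
  exact ⟨cy, hcy, le_trans (mul_le_mul_of_nonneg_right hc2 hnR.le) hl⟩

end Pool.Agent.Lib.MP_688fd0_co.ASY.H18
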