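import Pool.Agent.Lib.MP_688fd0_co.ASY.Iface
import Pool.Agent.Lib.MP_688fd0_co.LIN.H63.Next
import Pool.Agent.Lib.MP_688fd0_co.LIN.All

/-!
NEXT3 from STEP3.
-/

set_option autoImplicit false

namespace Pool.Agent.Lib.MP_688fd0_co.ASY.H18

open Classical
open Pool.Agent.Lib.MP_688fd0_co.LIN
open Pool.Agent.Lib.MP_688fd0_co.LIN.H63 (cyc_mono phi_two arith_next)
open Pool.Agent.Lib.MP_688fd0_co.LP (IsP Conn Cyc Symm cay)

universe u

/-- NEXT3 -/
theorem next3 (hstep : Step3Statement.{u}) (hopt : OptStatement.{u}) (henum : EnumStatement.{u}) :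
    Next3Statement.{u} := by
  obtain ⟨C1, hstep⟩ := hstep
  refine ⟨max C1 8, ?_⟩
  intro V _ G hVT D hD l K s hK hsD hl x hx hs hR
  have hC1 : C1 ≤ max C1 8 := le_max_left _ _
  have hC8 : 8 ≤ max C1 8 := le_max_right _ _
  set C0 := max C1 8 with hC0def
  obtain ⟨⟨H, hO⟩, hopt2⟩ := hopt V G l
  obtain ⟨hlong, -, hphi0⟩ := hopt2 H hO
  obtain ⟨H0, hH0, hR0⟩ := hR
  have hne : Nonempty V := hVT.conn.nonempty
  have hcardV : (0 : ℝ) < Fintype.card V := by exact_mod_cast Fintype.card_pos
  have hxn : 0 < x * (Fintype.card V : ℝ) := mul_pos hx hcardV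
  have hle : x * (Fintype.card V : ℝ) ≤ ((phi l H : ℤ) : ℝ) := by
    refine hR0.trans ?_
    exact_mod_cast hO.2 H0 hH0
  have hphi : ((phi l H : ℤ) : ℝ) = ((cov H).card : ℝ) - l * ncyc H := by
    unfold phi
    push_cast
    ring
  have hphi2 : ((phi (2 * l) H : ℤ) : ℝ) = ((cov H).card : ℝ) - l * ncyc H - l * ncyc H := by
    rw [phi_two]
    push_cast
    rw [hphi]
  have key : (K : ℝ) * (l * ncyc H) ≤ (cov H).card → Rat G (2 * l) (x * (1 - 1 / (K - 1))) := by
    intro h
    refine ⟨H, hO.1, ?_⟩
    rw [hphi2]
    exact arith_next hK (by rw [← hphi]; exact hle) hxn.le h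
  -- the number of cycles
  have hN0 : ncyc H ≠ 0 := by
    intro h0
    have h1 : cov H = ∅ := by
      unfold ncyc cycs at h0
      rw [Finset.card_eq_zero, Finset.image_eq_empty] at h0
      exact h0
    rw [hphi, h0, h1] at hle
    simp at hle
    linarith
  rcases Nat.lt_or_ge (ncyc H) 2 with hN | hN
  · have hN1 : ncyc H = 1 := by omega
    have hp : (phi l H : ℤ) ≤ (cov H).card := by
      unfold phi
      have : (0 : ℤ) ≤ (l : ℤ) * ncyc H := by positivity
      omega
    constructor
    · left
      obtain ⟨v, hv⟩ : (cov H).Nonempty := by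
        rw [Finset.nonempty_iff_ne_empty]
        intro h1
        apply hN0
        unfold ncyc cycs
        rw [h1]
        simp
      obtain ⟨c, hc, hcw⟩ := henum V G H hO.1 v hv
      refine ⟨c, cyc_mono hO.1.le hc, hle.trans ?_⟩
      have h2 : cov H ⊆ c.toFinset := by
        intro w hw
        rw [List.mem_toFinset, hcw]
        have h3 : (cycs H).card = 1 := hN1
        obtain ⟨S, hS⟩ := Finset.card_eq_one.1 h3
        have h4 : cyc H v ∈ cycs H := Finset.mem_image_of_mem _ hv
        have h5 : cyc H w ∈ cycs H := Finset.mem_image_of_mem _ hw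
        rw [hS, Finset.mem_singleton] at h4 h5
        have h6 : w ∈ cyc H w := by
          unfold cyc
          simp
        rw [h5, ← h4] at h6
        unfold cyc at h6
        simpa using h6
      have h3 : (cov H).card ≤ c.length := (Finset.card_le_card h2).trans (List.toFinset_card_le c)
      exact_mod_cast hp.trans (by exact_mod_cast h3)
    · intro hKl
      apply key
      rw [hN1]
      push_cast
      have h1 : ((phi l H : ℤ) : ℝ) ≤ (cov H).card := by exact_mod_cast hp
      linarith
  · have hs' : (K : ℝ) * (l * ncyc H) ≤ (cov H).card := by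
      by_contra hcon
      push Not at hcon
      have hlow : x * (Fintype.card V : ℝ) ≤ K * (l * ncyc H) := by
        have h1 : ((phi l H : ℤ) : ℝ) ≤ (cov H).card := by
          rw [hphi]
          have : (0 : ℝ) ≤ (l : ℝ) * ncyc H := by positivity
          linarith
        linarith
      have hl1 : C1 * K ^ 3 * (s + 1) ≤ l := by
        refine le_trans ?_ hl
        exact Nat.mul_le_mul_right _ (Nat.mul_le_mul_right _ hC1)
      have hcase : s = D ∨ 8 * Fintype.card V ≤ bn G s * ncyc H := by
        rcases hs with h | h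
        · exact Or.inl h
        · right
          have hb : (0 : ℝ) ≤ (bn G s : ℝ) := Nat.cast_nonneg _
          have hKl : (0 : ℝ) < (K : ℝ) * l := by
            have hlpos : 0 < l := by
              by_contra h0
              have : l = 0 := by omega
              rw [this] at hlow
              simp at hlow
              linarith
            have hKpos : 0 < K := by omega
            exact_mod_cast Nat.mul_pos hKpos hlpos
          -- 8 K l n ≤ C0 K l n ≤ x bn n ≤ bn K l N
          have e1 : (8 : ℝ) * (K * l) * Fintype.card V ≤ (C0 * K * l : ℝ) * Fintype.card V := by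
            have : (8 : ℝ) ≤ C0 := by exact_mod_cast hC8
            have h2 : (8 : ℝ) * (K * l) ≤ C0 * K * l := by nlinarith
            exact mul_le_mul_of_nonneg_right h2 hcardV.le
          have e2 : (C0 * K * l : ℝ) * Fintype.card V ≤ x * bn G s * Fintype.card V :=
            mul_le_mul_of_nonneg_right h hcardV.le
          have e3 : x * bn G s * Fintype.card V ≤ bn G s * (K * (l * ncyc H)) := by
            calc x * bn G s * Fintype.card V = bn G s * (x * Fintype.card V) := by ring
              _ ≤ bn G s * (K * (l * ncyc H)) := mul_le_mul_of_nonneg_left hlow hb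
          have e4 : ((K : ℝ) * l) * (8 * Fintype.card V) ≤ ((K : ℝ) * l) * (bn G s * ncyc H) := by
            calc ((K : ℝ) * l) * (8 * Fintype.card V) = 8 * (K * l) * Fintype.card V := by ring
              _ ≤ bn G s * (K * (l * ncyc H)) := e1.trans (e2.trans e3)
              _ = ((K : ℝ) * l) * (bn G s * ncyc H) := by ring
          have e5 := le_of_mul_le_mul_left e4 hKl
          exact_mod_cast e5
      have h1 := hstep V G H hVT D hD l K s hO (by omega) hsD hl1 hN hcase
      have h2 : ((K * l * ncyc H : ℕ) : ℝ) < ((cov H).card : ℝ) := by exact_mod_cast h1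
      push_cast at h2
      linarith
    exact ⟨Or.inr (key hs'), fun _ => key hs'⟩

end Pool.Agent.Lib.MP_688fd0_co.ASY.H18
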