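import Pool.Agent.Lib.MP_688fd0_co.ASY.Iface
import Pool.Agent.Lib.MP_688fd0_co.LIN.H18.PhaseB

/-!
Progress: at every stage there is a good radius, or a linear scale with few points.
-/

set_option autoImplicit false

namespace Pool.Agent.Lib.MP_688fd0_co.ASY.H18

open Classical
open Pool.Agent.Lib.MP_688fd0_co.LP (IsP Conn Cyc Symm cay)
open Pool.Agent.Lib.MP_688fd0_co.LIN
open Pool.Agent.Lib.MP_688fd0_co.LIN.H18

universe u

theorem growth_pow (j : ℕ) : 2 ^ (j / 22) * 31 ^ j ≤ 32 ^ j := by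
  have h22 : 2 * 31 ^ 22 ≤ 32 ^ 22 := by norm_num
  have hj : 22 * (j / 22) + j % 22 = j := Nat.div_add_mod j 22
  calc 2 ^ (j / 22) * 31 ^ j = 2 ^ (j / 22) * 31 ^ (22 * (j / 22) + j % 22) := by rw [hj]
    _ = (2 * 31 ^ 22) ^ (j / 22) * 31 ^ (j % 22) := by rw [pow_add, pow_mul, mul_pow]; ring
    _ ≤ (32 ^ 22) ^ (j / 22) * 32 ^ (j % 22) := by
        apply Nat.mul_le_mul
        · exact Nat.pow_le_pow_left h22 _
        · exact Nat.pow_le_pow_left (by norm_num) _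
    _ = 32 ^ (22 * (j / 22) + j % 22) := by rw [pow_add, pow_mul]
    _ = 32 ^ j := by rw [hj]

theorem num1 (B C : ℕ) : ∃ e0 : ℕ, ∀ e ≥ e0, ∀ s j : ℕ, 2 ^ e < (s + 2) * (C * e ^ 6) → s + 1 < 31 ^ (j + 1) →
    B * e ^ 8 * (s + 2) ≤ 32 ^ j := by
  obtain ⟨e1, he1⟩ := poly_le_two_pow (64 * C) 6
  obtain ⟨e2, he2⟩ := poly_le_two_pow (31 * B * 500 ^ 8) 8
  refine ⟨max (2 * e1) (max (500 * e2) 1000), ?_⟩
  intro e he s j h1 h2
  have ha : 2 * e1 ≤ e := (le_max_left _ _).trans he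
  have hb : 500 * e2 ≤ e := ((le_max_left _ _).trans (le_max_right _ _)).trans he
  have hc : 1000 ≤ e := ((le_max_right _ _).trans (le_max_right _ _)).trans he
  have h3 : C * e ^ 6 ≤ 2 ^ (e / 2) := by
    have h := he1 (e / 2) (by omega)
    refine le_trans ?_ h
    have h4 : e ≤ 2 * (e / 2 + 1) := by omega
    calc C * e ^ 6 ≤ C * (2 * (e / 2 + 1)) ^ 6 := by gcongr
      _ = 64 * C * (e / 2 + 1) ^ 6 := by ring
  have h4 : s + 2 ≤ 31 ^ (j + 1) := h2
  have h5 : 2 ^ e < 2 ^ (5 * (j + 1) + e / 2) := by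
    calc 2 ^ e < (s + 2) * (C * e ^ 6) := h1
      _ ≤ 31 ^ (j + 1) * 2 ^ (e / 2) := Nat.mul_le_mul h4 h3
      _ ≤ 32 ^ (j + 1) * 2 ^ (e / 2) := Nat.mul_le_mul_right _ (Nat.pow_le_pow_left (by norm_num) _)
      _ = 2 ^ (5 * (j + 1) + e / 2) := by
          rw [pow_add 2 (5 * (j + 1)) (e / 2), pow_mul 2 5 (j + 1)]
          norm_num
  have h6 : e < 5 * (j + 1) + e / 2 := (Nat.pow_lt_pow_iff_right (by norm_num)).1 h5
  have h7 : e / 500 ≤ j / 22 := by omega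
  have h8 : 31 * B * e ^ 8 ≤ 2 ^ (j / 22) := by
    have h := he2 (e / 500) (by omega)
    have h9 : e ≤ 500 * (e / 500 + 1) := by omega
    calc 31 * B * e ^ 8 ≤ 31 * B * (500 * (e / 500 + 1)) ^ 8 := by gcongr
      _ = 31 * B * 500 ^ 8 * (e / 500 + 1) ^ 8 := by ring
      _ ≤ 2 ^ (e / 500) := h
      _ ≤ 2 ^ (j / 22) := Nat.pow_le_pow_right (by norm_num) h7
  calc B * e ^ 8 * (s + 2) ≤ B * e ^ 8 * 31 ^ (j + 1) := Nat.mul_le_mul_left _ h4
    _ = 31 * B * e ^ 8 * 31 ^ j := by rw [pow_succ]; ring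
    _ ≤ 2 ^ (j / 22) * 31 ^ j := Nat.mul_le_mul_right _ h8
    _ ≤ 32 ^ j := growth_pow j

/-- a linear scale with few points -/
structure Thin {V : Type u} [Fintype V] (G : SimpleGraph V) (D e R i : ℕ) : Prop where
  le_D : 31 ^ (i + 1) ≤ D
  lin : bn G ((31 ^ i - 1) / 2 + 15 * 31 ^ i) < 32 * bn G ((31 ^ i - 1) / 2)
  big : 32 ^ i ≤ bn G ((31 ^ i - 1) / 2)
  few : bn G ((31 ^ i - 1) / 2) < R * e ^ 8 * 31 ^ i

theorem prog (hBase : BaseStatement.{u}) (hMono : MonoStatement.{u}) (C M : ℕ) (hC : 1 ≤ C) :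
    ∃ e0 : ℕ, ∀ e ≥ e0, ∀ (V : Type u) [Fintype V] (G : SimpleGraph V), VT G → ∀ D, Diam G D →
      (∃ s ≤ D, C * (e ^ 2) ^ 3 * (s + 1) ≤ 2 ^ e ∧ (s = D ∨ C * M * e ^ 2 * 2 ^ e ≤ bn G s)) ∨
      ∃ i, Thin G D e (8 * (C * M * C)) i := by
  obtain ⟨e1, he1⟩ := num1 (C * M * C) C
  obtain ⟨e2, he2⟩ := poly_le_two_pow (2 * C) 6
  refine ⟨max (max e1 e2) 4, ?_⟩
  intro e he V _ G hG D hD
  have h1e : e1 ≤ e := ((le_max_left _ _).trans (le_max_left _ _)).trans he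
  have h2e : e2 ≤ e := ((le_max_right _ _).trans (le_max_left _ _)).trans he
  have h4e : 4 ≤ e := (le_max_right _ _).trans he
  have hpos : 0 < C * e ^ 6 := by positivity
  have hbig : 2 * (C * e ^ 6) ≤ 2 ^ e := by
    refine le_trans ?_ (he2 e h2e)
    calc 2 * (C * e ^ 6) ≤ 2 * (C * (e + 1) ^ 6) := by gcongr; omega
      _ = 2 * C * (e + 1) ^ 6 := by ring
  obtain ⟨s, hs⟩ : ∃ s, 2 ^ e / (C * e ^ 6) = s + 1 := by
    have : 2 ≤ 2 ^ e / (C * e ^ 6) := (Nat.le_div_iff_mul_le hpos).2 hbig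
    exact ⟨2 ^ e / (C * e ^ 6) - 1, by omega⟩
  have hs1 : (s + 1) * (C * e ^ 6) ≤ 2 ^ e := by
    rw [← hs]; exact Nat.div_mul_le_self _ _
  have hs2 : 2 ^ e < (s + 2) * (C * e ^ 6) := by
    have h := Nat.lt_mul_div_succ (2 ^ e) hpos
    rw [hs] at h
    calc 2 ^ e < C * e ^ 6 * (s + 1 + 1) := h
      _ = (s + 2) * (C * e ^ 6) := by ring
  obtain ⟨_, _, _, hB0, hBm, _, _⟩ := hBase V G hG
  by_cases hsD : D ≤ s
  · left
    refine ⟨D, le_rfl, ?_, Or.inl rfl⟩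
    calc C * (e ^ 2) ^ 3 * (D + 1) ≤ C * (e ^ 2) ^ 3 * (s + 1) := by gcongr
      _ = (s + 1) * (C * e ^ 6) := by ring
      _ ≤ 2 ^ e := hs1
  push Not at hsD
  -- the scale
  have hlog1 : 31 ^ (Nat.log 31 (s + 1)) ≤ s + 1 := Nat.pow_log_le_self 31 (by omega)
  have hlog2 : s + 1 < 31 ^ (Nat.log 31 (s + 1) + 1) := Nat.lt_pow_succ_log_self (by norm_num) _
  set j := Nat.log 31 (s + 1) with hj
  clear_value j
  have hr : ∀ k, (31 ^ k - 1) / 2 ≤ 31 ^ k - 1 := fun k => Nat.div_le_self _ _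
  have hneed : ∀ y, C * M * C * e ^ 8 * (s + 2) ≤ y → C * M * e ^ 2 * 2 ^ e ≤ y := by
    intro y hy
    refine le_trans ?_ hy
    calc C * M * e ^ 2 * 2 ^ e ≤ C * M * e ^ 2 * ((s + 2) * (C * e ^ 6)) := Nat.mul_le_mul_left _ hs2.le
      _ = C * M * C * e ^ 8 * (s + 2) := by ring
  by_cases hlin : ∀ i < j, 32 * bn G ((31 ^ i - 1) / 2) ≤ bn G ((31 ^ (i + 1) - 1) / 2)
  · left
    refine ⟨s, hsD.le, ?_, Or.inr ?_⟩
    · calc C * (e ^ 2) ^ 3 * (s + 1) = (s + 1) * (C * e ^ 6) := by ring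
        _ ≤ 2 ^ e := hs1
    · have hpow : ∀ k, k ≤ j → 32 ^ k ≤ bn G ((31 ^ k - 1) / 2) := by
        intro k
        induction k with
        | zero => intro _; simp [hB0]
        | succ k ihk =>
          intro hk
          have h1 := ihk (by omega)
          have h2 := hlin k (by omega)
          calc 32 ^ (k + 1) = 32 * 32 ^ k := by ring
            _ ≤ 32 * bn G ((31 ^ k - 1) / 2) := by omega
            _ ≤ _ := h2
      have h1 := he1 e h1e s j hs2 hlog2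
      apply hneed
      refine h1.trans ((hpow j le_rfl).trans (hBm _ _ ?_))
      have := hr j
      omega
  · push Not at hlin
    have hex : ∃ i, i < j ∧ bn G ((31 ^ (i + 1) - 1) / 2) < 32 * bn G ((31 ^ i - 1) / 2) := hlin
    obtain ⟨hi1, hi2⟩ := Nat.find_spec hex
    have hmin := fun i (h : i < Nat.find hex) => Nat.find_min hex h
    set i := Nat.find hex with hidef
    have hpow : ∀ k, k ≤ i → 32 ^ k ≤ bn G ((31 ^ k - 1) / 2) := by
      intro k
      induction k with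
      | zero => intro _; simp [hB0]
      | succ k ihk =>
        intro hk
        have h1 := ihk (by omega)
        have h2 := hmin k (by omega)
        push Not at h2
        have h3 := h2 (by omega)
        calc 32 ^ (k + 1) = 32 * 32 ^ k := by ring
          _ ≤ 32 * bn G ((31 ^ k - 1) / 2) := by omega
          _ ≤ _ := h3
    have hij : 31 ^ (i + 1) ≤ 31 ^ j := Nat.pow_le_pow_right (by norm_num) hi1
    by_cases hfew : bn G ((31 ^ i - 1) / 2) < 8 * (C * M * C) * e ^ 8 * 31 ^ i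
    · right
      refine ⟨i, ?_, ?_, hpow i le_rfl, hfew⟩
      · omega
      · rw [← succ_scale]; exact hi2
    · left
      push Not at hfew
      refine ⟨s, hsD.le, ?_, Or.inr ?_⟩
      · calc C * (e ^ 2) ^ 3 * (s + 1) = (s + 1) * (C * e ^ 6) := by ring
          _ ≤ 2 ^ e := hs1
      · apply hneed
        have hri : (31 ^ i - 1) / 2 + 1 ≤ 31 ^ i := by
          have := odd_pow i
          omega
        have his : (31 ^ i - 1) / 2 ≤ s := by
          have h1 : 31 ^ i ≤ 31 ^ (i + 1) := Nat.pow_le_pow_right (by norm_num) (by omega)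
          omega
        have hm := hMono V G hG D hD ((31 ^ i - 1) / 2) s his hsD.le
        set r := (31 ^ i - 1) / 2 with hrdef
        have h1 : (r + 1) * (8 * (C * M * C) * e ^ 8 * (s + 1)) ≤ (r + 1) * (4 * bn G s) := by
          calc (r + 1) * (8 * (C * M * C) * e ^ 8 * (s + 1))
              ≤ 31 ^ i * (8 * (C * M * C) * e ^ 8 * (s + 1)) := Nat.mul_le_mul_right _ hri
            _ = (s + 1) * (8 * (C * M * C) * e ^ 8 * 31 ^ i) := by ring
            _ ≤ (s + 1) * bn G r := Nat.mul_le_mul_left _ hfew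
            _ ≤ 4 * (r + 1) * bn G s := hm
            _ = (r + 1) * (4 * bn G s) := by ring
        have h2 := Nat.le_of_mul_le_mul_left h1 (by omega)
        have h3 : 4 * (C * M * C * e ^ 8 * (s + 2)) ≤ 4 * bn G s := by
          refine le_trans ?_ h2
          calc 4 * (C * M * C * e ^ 8 * (s + 2)) ≤ 4 * (C * M * C * e ^ 8 * (2 * (s + 1))) := by
                gcongr; omega
            _ = 8 * (C * M * C) * e ^ 8 * (s + 1) := by ring
        omega

end Pool.Agent.Lib.MP_688fd0_co.ASY.H18
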