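import Pool.Agent.Lib.MP_688fd0_co.ASY.All
import Pool.Agent.Lib.MP_688fd0_co.LP.VT.Walk

/-!
Translation to generator sequences of groups.
-/

set_option autoImplicit false

namespace Pool.Agent.Lib.MP_688fd0_co.ASY.H18

open Classical
open Pool.Agent.Lib.MP_688fd0_co.LPV
open Pool.Agent.Lib.MP_688fd0_co.LP (IsP Conn Cyc Symm cay)
open Pool.Agent.Lib.MP_688fd0_co.LIN

universe u

variable {Γ : Type u} [Group Γ] [Fintype Γ]

theorem vt_cayS {A : Set Γ} (hA : ∀ x ∈ A, x⁻¹ ∈ A) (hgen : Subgroup.closure A = ⊤) : VT (cayS A) :=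
  ⟨cayS_conn hA hgen, cayS_trans hA⟩

theorem dg_cayS {A : Set Γ} (hA : ∀ x ∈ A, x⁻¹ ∈ A) : Nat.card A ≤ dg (cayS A) 1 + 1 := by
  have h1 : Nat.card A = (Finset.univ.filter (fun x => x ∈ A)).card := by
    rw [Nat.card_eq_fintype_card, ← Set.toFinset_card]
    congr 1
    ext x
    simp
  rw [h1]
  unfold dg
  refine le_trans (Finset.card_le_card ?_) (Finset.card_insert_le (1 : Γ) _)
  intro x hx
  rw [Finset.mem_insert]
  by_cases h : x = 1
  · exact Or.inl h
  · right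
    simp only [Finset.mem_filter, Finset.mem_univ, true_and] at hx ⊢
    rw [cayS_adj hA]
    exact ⟨fun h' => h h'.symm, by simpa using hx⟩

theorem dist_mul_prod {A : Set Γ} (hA : ∀ x ∈ A, x⁻¹ ∈ A) (hgen : Subgroup.closure A = ⊤) (l : List Γ) :
    ∀ x : Γ, (∀ y ∈ l, y ∈ A) → (cayS A).dist x (x * l.prod) ≤ l.length := by
  induction l with
  | nil => intro x _; simp
  | cons a l ih =>
    intro x hl
    have h1 : (cayS A).dist x (x * a) ≤ 1 := by
      by_cases h : x = x * a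
      · rw [← h]; simp
      · have hadj : (cayS A).Adj x (x * a) := (cayS_adj hA).2 ⟨h, by simpa using hl a (by simp)⟩
        rw [SimpleGraph.dist_eq_one_iff_adj.2 hadj]
    have h2 := ih (x * a) (fun y hy => hl y (by simp [hy]))
    have h3 := (cayS_conn hA hgen).dist_triangle (u := x) (v := x * a) (w := x * a * l.prod)
    rw [List.prod_cons, ← mul_assoc, List.length_cons]
    omega

theorem diam_cond {A : Set Γ} (hA : ∀ x ∈ A, x⁻¹ ∈ A) (hgen : Subgroup.closure A = ⊤) (L N : ℝ) (hL : 0 ≤ L)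
    (h : ∀ g : Γ, ∃ l : List Γ, (∀ x ∈ l, x ∈ A) ∧ l.prod = g ∧ (l.length : ℝ) * L ≤ N) :
    ∀ D, Diam (cayS A) D → (D : ℝ) * L ≤ N := by
  rintro D ⟨_, x, y, hxy⟩
  obtain ⟨l, hl, hp, hlen⟩ := h (x⁻¹ * y)
  have h1 := dist_mul_prod hA hgen l x hl
  rw [hp, mul_inv_cancel_left, hxy] at h1
  have h2 : (D : ℝ) ≤ l.length := by exact_mod_cast h1
  calc (D : ℝ) * L ≤ l.length * L := mul_le_mul_of_nonneg_right h2 hL
    _ ≤ N := hlen

/-- from a cycle to a sequence -/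
theorem seq_of_cycle {A : Set Γ} (hA : ∀ x ∈ A, x⁻¹ ∈ A) {x : ℝ} {cy : List Γ} (hcy : Cyc (cayS A) cy)
    (hx : x ≤ cy.length) :
    ∃ (k : ℕ) (a : Fin k → Γ), (∀ i, a i ∈ A) ∧
      Function.Injective (fun j : Fin k => ((List.ofFn a).take (j + 1)).prod) ∧
      (List.ofFn a).prod = 1 ∧ 3 ≤ k ∧ x ≤ k := by
  obtain ⟨a, h1, h2, h3⟩ := seq_of_cyc hA hcy
  exact ⟨cy.length, a, h1, h2, h3, hcy.2.1, hx⟩

/-- a cyclic sequence of group elements as a cycle of the Cayley graph -/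
theorem cyc_of_getElem {A : Set Γ} (hA : ∀ x ∈ A, x⁻¹ ∈ A) (l : List Γ) (hlen : 3 ≤ l.length) (hnd : l.Nodup)
    (h : ∀ (i j : ℕ) (hi : i < l.length) (hj : j < l.length), j = (i + 1) % l.length → (l[i])⁻¹ * l[j] ∈ A) :
    Cyc (cayS A) l := by
  refine ⟨⟨by intro h0; rw [h0] at hlen; simp at hlen, ?_, hnd⟩, hlen, l[0], l[l.length - 1], ?_, ?_, ?_⟩
  · rw [List.isChain_iff_getElem]
    intro i hi
    rw [cayS_adj hA]
    have h1 := h i (i + 1) (by omega) hi (Nat.mod_eq_of_lt hi).symm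
    refine ⟨?_, h1⟩
    intro h3
    have h4 := (List.Nodup.getElem_inj_iff hnd).1 h3
    omega
  · rw [List.head?_eq_getElem?, List.getElem?_eq_getElem (by omega)]
  · rw [List.getLast?_eq_getElem?, List.getElem?_eq_getElem (by omega)]
  · rw [cayS_adj hA]
    have h1 := h (l.length - 1) 0 (by omega) (by omega)
      (by rw [show l.length - 1 + 1 = l.length by omega, Nat.mod_self])
    refine ⟨?_, h1⟩
    intro h3
    have h4 := (List.Nodup.getElem_inj_iff hnd).1 h3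
    omega

end Pool.Agent.Lib.MP_688fd0_co.ASY.H18
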