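import Pool.Agent.Lib.MP_688fd0_co.ASY.Iface3
import Pool.Agent.Lib.MP_688fd0_co.ASY.H18.Main
import Pool.Agent.Lib.MP_688fd0_co.ASY.H18.Next3

/-!
T2VU and T3VU from TUBE.
-/

set_option autoImplicit false

namespace Pool.Agent.Lib.MP_688fd0_co.ASY.H18

open Classical
open Pool.Agent.Lib.MP_688fd0_co.LP (IsP Conn Cyc Symm cay)
open Pool.Agent.Lib.MP_688fd0_co.LIN
open Pool.Agent.Lib.MP_688fd0_co.LIN.H18
open Pool.Agent.Lib.MP_688fd0_co.LIN.H63 (cyc_mono)

universe u

theorem numT_aux (i q p : ℕ) (hp : p = 110) (hq : q = 105) : 31 ^ i ≤ 2 ^ q * (2 ^ (i / 22)) ^ p := by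
  calc 31 ^ i ≤ 32 ^ i := Nat.pow_le_pow_left (by norm_num) _
    _ = 2 ^ (5 * i) := by rw [pow_mul]; norm_num
    _ ≤ 2 ^ (q + (i / 22) * p) := Nat.pow_le_pow_right (by norm_num) (by subst hp; subst hq; omega)
    _ = 2 ^ q * (2 ^ (i / 22)) ^ p := by rw [pow_add, pow_mul]

theorem numT (C k R : ℕ) : ∃ e0 : ℕ, ∀ e ≥ e0, ∀ i b : ℕ, 32 ^ i ≤ b → b < R * e ^ 8 * 31 ^ i →
    C * b ^ k ≤ 2 ^ e := by
  obtain ⟨p, hp⟩ : ∃ p, p = 110 := ⟨_, rfl⟩
  obtain ⟨q, hq⟩ : ∃ q, q = 105 := ⟨_, rfl⟩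
  obtain ⟨e1, he1⟩ := poly_le_two_pow (C * (2 ^ q * R ^ (p + 1)) ^ k) (8 * (p + 1) * k)
  refine ⟨e1, ?_⟩
  intro e he i b h1 h2
  have h3 : 2 ^ (i / 22) * 31 ^ i < R * e ^ 8 * 31 ^ i := (growth_pow i).trans_lt (h1.trans_lt h2)
  have h4 : 2 ^ (i / 22) < R * e ^ 8 := Nat.lt_of_mul_lt_mul_right h3
  have h5 : 31 ^ i ≤ 2 ^ q * (R * e ^ 8) ^ p :=
    (numT_aux i q p hp hq).trans (Nat.mul_le_mul_left _ (Nat.pow_le_pow_left h4.le p))
  have h6 : b ≤ 2 ^ q * R ^ (p + 1) * (e + 1) ^ (8 * (p + 1)) := by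
    calc b ≤ R * e ^ 8 * 31 ^ i := h2.le
      _ ≤ R * e ^ 8 * (2 ^ q * (R * e ^ 8) ^ p) := Nat.mul_le_mul_left _ h5
      _ = 2 ^ q * (R * e ^ 8) ^ (p + 1) := by rw [pow_succ]; ring
      _ ≤ 2 ^ q * (R * (e + 1) ^ 8) ^ (p + 1) := by gcongr; omega
      _ = 2 ^ q * R ^ (p + 1) * (e + 1) ^ (8 * (p + 1)) := by rw [mul_pow, ← pow_mul, mul_assoc]
  calc C * b ^ k ≤ C * (2 ^ q * R ^ (p + 1) * (e + 1) ^ (8 * (p + 1))) ^ k := by gcongr
    _ = C * (2 ^ q * R ^ (p + 1)) ^ k * (e + 1) ^ (8 * (p + 1) * k) := by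
        rw [mul_pow, ← pow_mul (e + 1)]
        exact (mul_assoc _ _ _).symm
    _ ≤ 2 ^ e := he1 e he

/-- a family with at most one cycle -/
theorem one_cycle {V : Type u} [Fintype V] {G H : SimpleGraph V} (henum : EnumStatement.{u}) (hH : CF G H)
    (hN : ncyc H ≤ 1) (hcov : (cov H).Nonempty) : ∃ c, Cyc G c ∧ (cov H).card ≤ c.length := by
  obtain ⟨v, hv⟩ := hcov
  obtain ⟨c, hc, hcw⟩ := henum V G H hH v hv
  refine ⟨c, cyc_mono hH.le hc, ?_⟩
  have h2 : cov H ⊆ c.toFinset := by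
    intro w hw
    rw [List.mem_toFinset, hcw]
    have h4 : cyc H v ∈ cycs H := Finset.mem_image_of_mem _ hv
    have h5 : cyc H w ∈ cycs H := Finset.mem_image_of_mem _ hw
    have h6 : cyc H w = cyc H v := Finset.card_le_one.1 hN _ h5 _ h4
    have h7 : w ∈ cyc H w := by
      unfold cyc
      simp
    rw [h6] at h7
    unfold cyc at h7
    simpa using h7
  exact (Finset.card_le_card h2).trans (List.toFinset_card_le c)

/-- small degree -/
theorem deg_two {V : Type u} [Fintype V] {G : SimpleGraph V} (henum : EnumStatement.{u}) (hG : VT G)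
    (hd : ∀ v, dg G v < 3) (hn : 3 ≤ Fintype.card V) : ∃ c, Cyc G c ∧ Fintype.card V ≤ c.length := by
  have hne : Nonempty V := hG.conn.nonempty
  obtain ⟨v0⟩ := hne
  -- a long cycle exists, so some vertex has degree at least two
  obtain ⟨P, hP, _⟩ := Pool.Agent.Lib.MP_688fd0_co.LPV.long_cycle G hG.conn hG.tr hn
  have hdeg : ∀ v, dg G v = 2 := by
    obtain ⟨⟨hP1, hP2, hP3⟩, hP4, a, b, ha, hb, hab⟩ := hP
    have hex : ∃ v, 2 ≤ dg G v := by
      match P, hP4, hP2, hP3, ha, hb with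
      | x :: y :: z :: t, _, hch, hnd, ha, hb =>
        have hxa : x = a := by simpa using ha
        subst hxa
        refine ⟨x, ?_⟩
        have hbm : b ∈ z :: t := by
          have h1 : (x :: y :: z :: t).getLast? = (z :: t).getLast? := by simp [List.getLast?_cons_cons]
          rw [h1] at hb
          exact List.mem_of_getLast? hb
        have hxy : G.Adj x y := by
          simp only [List.isChain_cons_cons] at hch
          exact hch.1
        have hyb : y ≠ b := by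
          rintro rfl
          simp only [List.nodup_cons] at hnd
          exact hnd.2.1 hbm
        unfold dg
        have : ({y, b} : Finset V) ⊆ Finset.univ.filter (fun w => G.Adj x w) := by
          intro w hw
          simp only [Finset.mem_insert, Finset.mem_singleton] at hw
          simp only [Finset.mem_filter, Finset.mem_univ, true_and]
          rcases hw with rfl | rfl
          · exact hxy
          · exact hab.symm
        calc 2 = ({y, b} : Finset V).card := (Finset.card_pair hyb).symm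
          _ ≤ _ := Finset.card_le_card this
    obtain ⟨v, hv⟩ := hex
    intro u
    have h1 := vt_regular hG u v
    have h2 := hd v
    omega
  have hCF : CF G G := ⟨le_rfl, fun v => Or.inr (hdeg v)⟩
  have hcov : v0 ∈ cov G := by
    have h1 := hdeg v0
    unfold dg at h1
    have h2 : (Finset.univ.filter (fun w => G.Adj v0 w)).Nonempty := by
      rw [← Finset.card_pos]; omega
    obtain ⟨w, hw⟩ := h2
    simp only [Finset.mem_filter, Finset.mem_univ, true_and] at hw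
    unfold cov
    simp only [Finset.mem_filter, Finset.mem_univ, true_and]
    exact ⟨w, hw⟩
  obtain ⟨c, hc, hcw⟩ := henum V G G hCF v0 hcov
  refine ⟨c, hc, ?_⟩
  have h2 : (Finset.univ : Finset V) ⊆ c.toFinset := by
    intro w _
    rw [List.mem_toFinset, hcw]
    exact hG.conn.preconnected v0 w
  rw [← Finset.card_univ]
  exact (Finset.card_le_card h2).trans (List.toFinset_card_le c)

/-- the loop without diameter condition -/
theorem loop_tube (hNext3 : Next3Statement.{u}) (hTube : TubeStatement.{u}) (hOpt : OptStatement.{u})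
    (henum : EnumStatement.{u}) (hBase : BaseStatement.{u}) (hMono : MonoStatement.{u}) (hLing : LingStatement.{u}) :
    ∃ e0 : ℕ, 4 ≤ e0 ∧ ∀ (V : Type u) [Fintype V] (G : SimpleGraph V), VT G →
      ∀ e1, e0 ≤ e1 → ∀ c : ℝ, 1 / 4 ≤ c → c ≤ 1 → Rat G (2 ^ e1) (c * (1 + 2 / (e1 : ℝ))) →
      ∃ cy, Cyc G cy ∧ c * (Fintype.card V : ℝ) ≤ cy.length := by
  obtain ⟨R, e0, he04, hloop⟩ := loop hNext3 hOpt hBase hMono 4 (by norm_num)
  obtain ⟨CT, k, hT⟩ := hTube
  obtain ⟨eA, hA⟩ := numT (100000 * CT * (CT + 1) ^ k) (k * k + 1) R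
  obtain ⟨eB, hB⟩ := numT (CT + 1) k R
  refine ⟨max e0 (max eA eB), he04.trans (le_max_left _ _), ?_⟩
  intro V _ G hG e1 he1 c hc hc1 hR
  have h10 : e0 ≤ e1 := (le_max_left _ _).trans he1
  have h1A : eA ≤ e1 := ((le_max_left _ _).trans (le_max_right _ _)).trans he1
  have h1B : eB ≤ e1 := ((le_max_right _ _).trans (le_max_right _ _)).trans he1
  obtain ⟨_, _, _, _, _, _, D, hD⟩ := hBase _ G hG
  have hne : Nonempty V := hG.conn.nonempty
  have hn : 0 < Fintype.card V := Fintype.card_pos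
  have hnR : (0 : ℝ) < Fintype.card V := by exact_mod_cast hn
  have hc0 : 0 < c := lt_of_lt_of_le (by norm_num) hc
  rcases hloop V G hG D hD e1 h10 c (by exact_mod_cast hc) hR with h | ⟨e, he, hen, hRe, i, hthin⟩
  · exact h
  have he4 : 4 ≤ e := he04.trans (h10.trans he)
  by_cases hdeg : ∀ v, dg G v < 3
  · have hn3 : 3 ≤ Fintype.card V := by
      have h1 : 2 ^ 4 ≤ 2 ^ e := Nat.pow_le_pow_right (by norm_num) he4
      omega
    obtain ⟨cy, hcy, hl⟩ := deg_two henum hG hdeg hn3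
    refine ⟨cy, hcy, ?_⟩
    have h1 : (Fintype.card V : ℝ) ≤ cy.length := by exact_mod_cast hl
    nlinarith
  push Not at hdeg
  have h30 : 30 * 31 ^ i ≤ D := by
    have := hthin.le_D
    rw [pow_succ] at this
    omega
  have h1 := hLing V G hG D hD ((31 ^ i - 1) / 2) (31 ^ i) (odd_pow i) hthin.lin h30
  have h2A := hA e (h1A.trans he) i _ hthin.big hthin.few
  have h2B := hB e (h1B.trans he) i _ hthin.big hthin.few
  set b := bn G ((31 ^ i - 1) / 2) with hb
  have hb1 : 1 ≤ b := le_trans (Nat.one_le_pow _ _ (by norm_num)) hthin.big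
  set l := (CT + 1) * b ^ k with hl
  have hl2 : l ≤ 2 ^ e := h2B
  have hlD : CT * l ^ k ≤ D := by
    have h3 : 100000 * b * (CT * l ^ k) ≤ 100000 * b * D := by
      calc 100000 * b * (CT * l ^ k) = 100000 * CT * (CT + 1) ^ k * b ^ (k * k + 1) := by
            rw [hl, mul_pow, ← pow_mul, pow_succ]; ring
        _ ≤ 2 ^ e := h2A
        _ ≤ Fintype.card V := hen
        _ ≤ 31 ^ i * Fintype.card V := Nat.le_mul_of_pos_left _ (by positivity)
        _ ≤ 100000 * D * b := h1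
        _ = 100000 * b * D := by ring
    exact Nat.le_of_mul_le_mul_left h3 (by positivity)
  -- the optimal family for l
  obtain ⟨⟨H, hH⟩, hO⟩ := hOpt V G l
  obtain ⟨H0, hH0, hH0x⟩ := hRe
  have hphi : ((phi (2 ^ e) H0 : ℤ) : ℝ) ≤ ((phi l H0 : ℤ) : ℝ) := by
    have : phi (2 ^ e) H0 ≤ phi l H0 := by
      unfold phi
      have h3 : ((l : ℕ) : ℤ) ≤ ((2 ^ e : ℕ) : ℤ) := by exact_mod_cast hl2
      have h4 : (0 : ℤ) ≤ ncyc H0 := by positivity
      nlinarith
    exact_mod_cast this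
  have hR' : Rat G l (c * (1 + 2 / (e : ℝ))) := ⟨H0, hH0, hH0x.trans hphi⟩
  have h5 := opt_rat hR' hH
  have h6 := phi_le_cov l H
  have h7 : 0 < c * (1 + 2 / (e : ℝ)) * (Fintype.card V : ℝ) := by positivity
  have h8 : 0 < ((cov H).card : ℝ) := by linarith
  have h9 : 0 < (cov H).card := by exact_mod_cast h8
  have h11 : ncyc H ≤ 1 := by
    refine hT V G H hG hdeg D hD ((31 ^ i - 1) / 2) (31 ^ i) l (odd_pow i) hthin.lin hH ?_ hlD
    rw [hl]
    exact Nat.mul_le_mul_right _ (by omega)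
  obtain ⟨cy, hcy, hlen⟩ := one_cycle henum hH.1 h11 (Finset.card_pos.1 h9)
  refine ⟨cy, hcy, ?_⟩
  have h12 : ((cov H).card : ℝ) ≤ cy.length := by exact_mod_cast hlen
  have h13 : c * (Fintype.card V : ℝ) ≤ c * (1 + 2 / (e : ℝ)) * (Fintype.card V : ℝ) := by
    have h14 : (0 : ℝ) ≤ 2 / (e : ℝ) := by positivity
    have h15 : c ≤ c * (1 + 2 / (e : ℝ)) := by nlinarith
    exact mul_le_mul_of_nonneg_right h15 hnR.le
  linarith

theorem t2vu (hNext3 : Next3Statement.{u}) (hTube : TubeStatement.{u}) (hOpt : OptStatement.{u})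
    (henum : EnumStatement.{u}) (hBase : BaseStatement.{u}) (hMono : MonoStatement.{u}) (hLing : LingStatement.{u}) :
    T2vuStatement.{u} := by
  intro ε hε hε1
  obtain ⟨eL, heL4, hL⟩ := loop_tube hNext3 hTube hOpt henum hBase hMono hLing
  obtain ⟨e3, he3⟩ := exists_nat_ge (8 / ε)
  set e0 := max eL e3 with he0
  have h0L : eL ≤ e0 := le_max_left _ _
  have h03 : e3 ≤ e0 := le_max_right _ _
  have h04 : 4 ≤ e0 := heL4.trans h0L
  clear_value e0
  obtain ⟨C, hC⟩ := exists_nat_ge (4 * 2 ^ e0 / ε)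
  refine ⟨C, ?_⟩
  intro V _ G hG hfam
  obtain ⟨F, hF, hPD, hsum⟩ := hfam
  have hne : Nonempty V := hG.conn.nonempty
  have hnR : (0 : ℝ) < Fintype.card V := by
    have : 0 < Fintype.card V := Fintype.card_pos
    exact_mod_cast this
  by_cases hhalf : 1 / 2 ≤ ε
  · have hne : F.Nonempty := by
      rw [Finset.nonempty_iff_ne_empty]
      rintro rfl
      rw [Finset.sum_empty] at hsum
      nlinarith
    obtain ⟨c, hc⟩ := hne
    refine ⟨c, (hF c hc).1, ?_⟩
    have h1 : (0 : ℝ) ≤ c.length := by positivity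
    nlinarith
  push Not at hhalf
  have he0R : (0 : ℝ) < e0 := by
    have : 0 < e0 := by omega
    exact_mod_cast this
  set c : ℝ := (1 - 5 * ε / 4) / (1 + 2 / (e0 : ℝ)) with hcdef
  have hpos1 : (0 : ℝ) < 1 + 2 / (e0 : ℝ) := by positivity
  have h2e0 : 2 / (e0 : ℝ) ≤ ε / 4 := by
    have h1 : 8 / ε ≤ e0 := he3.trans (by exact_mod_cast h03)
    rw [div_le_iff₀ hε] at h1
    rw [div_le_iff₀ he0R]
    nlinarith
  have hc14 : 1 / 4 ≤ c := by
    rw [hcdef, le_div_iff₀ hpos1]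
    nlinarith
  have hc1 : c ≤ 1 := by
    rw [hcdef, div_le_one hpos1]
    have : 0 < 2 / (e0 : ℝ) := by positivity
    linarith
  have hc2 : 1 - 2 * ε ≤ c := by
    rw [hcdef, le_div_iff₀ hpos1]
    nlinarith
  have hcc : c * (1 + 2 / (e0 : ℝ)) = 1 - 5 * ε / 4 := by
    rw [hcdef]; field_simp
  have hstart : Rat G (2 ^ e0) (c * (1 + 2 / (e0 : ℝ))) := by
    rw [hcc]
    refine start_family' F C (2 ^ e0) ε hF hPD hsum ?_ hε
    rw [div_le_iff₀ hε] at hC
    push_cast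
    nlinarith
  obtain ⟨cy, hcy, hl⟩ := hL V G hG e0 h0L c hc14 hc1 hstart
  exact ⟨cy, hcy, le_trans (mul_le_mul_of_nonneg_right hc2 hnR.le) hl⟩

theorem t3vu (hNext3 : Next3Statement.{u}) (hStart3 : Start3Statement.{u}) (hTube : TubeStatement.{u})
    (hOpt : OptStatement.{u}) (henum : EnumStatement.{u}) (hBase : BaseStatement.{u}) (hMono : MonoStatement.{u})
    (hLing : LingStatement.{u}) : T3vuStatement.{u} := by
  intro ε' hε'
  set ε := min ε' (1 / 2) with hεdef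
  have hε : 0 < ε := by positivity
  have hεh : ε ≤ 1 / 2 := min_le_right _ _
  have hεε : ε ≤ ε' := min_le_left _ _
  clear_value ε
  obtain ⟨eL, heL4, hL⟩ := loop_tube hNext3 hTube hOpt henum hBase hMono hLing
  obtain ⟨e3, he3⟩ := exists_nat_ge (8 / ε)
  set e0 := max eL e3 with he0
  have h0L : eL ≤ e0 := le_max_left _ _
  have h03 : e3 ≤ e0 := le_max_right _ _
  have h04 : 4 ≤ e0 := heL4.trans h0L
  clear_value e0
  obtain ⟨d0, hd0⟩ := hStart3 (ε / 2) (by positivity) (2 ^ e0)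
  refine ⟨d0, ?_⟩
  intro V _ G hG hdeg
  obtain ⟨v0, hv0⟩ := hdeg
  have hne : Nonempty V := hG.conn.nonempty
  have hnR : (0 : ℝ) < Fintype.card V := by
    have : 0 < Fintype.card V := Fintype.card_pos
    exact_mod_cast this
  have hR := hd0 V G (dg G v0) (fun v => vt_regular hG v v0) hv0
  have he0R : (0 : ℝ) < e0 := by
    have : 0 < e0 := by omega
    exact_mod_cast this
  set c : ℝ := (1 - ε / 2) / (1 + 2 / (e0 : ℝ)) with hcdef
  have hpos1 : (0 : ℝ) < 1 + 2 / (e0 : ℝ) := by positivity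
  have h2e0 : 2 / (e0 : ℝ) ≤ ε / 4 := by
    have h1 : 8 / ε ≤ e0 := he3.trans (by exact_mod_cast h03)
    rw [div_le_iff₀ hε] at h1
    rw [div_le_iff₀ he0R]
    nlinarith
  have hc14 : 1 / 4 ≤ c := by
    rw [hcdef, le_div_iff₀ hpos1]
    nlinarith
  have hc1 : c ≤ 1 := by
    rw [hcdef, div_le_one hpos1]
    have : 0 < 2 / (e0 : ℝ) := by positivity
    linarith
  have hc2 : 1 - ε' ≤ c := by
    rw [hcdef, le_div_iff₀ hpos1]
    nlinarith
  have hcc : c * (1 + 2 / (e0 : ℝ)) = 1 - ε / 2 := by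
    rw [hcdef]; field_simp
  obtain ⟨cy, hcy, hl⟩ := hL V G hG e0 h0L c hc14 hc1 (by rw [hcc]; exact hR)
  exact ⟨cy, hcy, le_trans (mul_le_mul_of_nonneg_right hc2 hnR.le) hl⟩

end Pool.Agent.Lib.MP_688fd0_co.ASY.H18
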